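import Pool.Agent.helper12.DD.Spec2
import Pool.Agent.helper12.DD.OPE

/-!
# Project dw: module CHQ
-/

set_option autoImplicit false

open Pool.Agent.helper49.Blk

namespace Pool.Agent.DD

theorem CHQ_pgroup {p q : ℕ} (hp : p.Prime) (hq : q.Prime) (hqp : q ≠ p) {W : Type} [Group W]
    [Finite W] (N : Subgroup W) (hN : N.Normal) (hi : N.index = q) (Q : Subgroup W)
    (hQ : IsPGroup p Q) : Q ≤ N := by
  intro x hx
  have h1 : x ^ q ∈ N := by
    rw [← hi]
    exact N.pow_index_mem x
  obtain ⟨n, hn⟩ := hQ ⟨x, hx⟩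
  have h2 : x ^ (p ^ n) = 1 := by
    have := congrArg Subtype.val hn
    simpa using this
  have hco : Nat.Coprime q (p ^ n) :=
    Nat.Coprime.pow_right n ((Nat.coprime_primes hq hp).mpr hqp)
  have h3 : x ^ (1 : ℤ) ∈ N := by
    have hb := Nat.gcd_eq_gcd_ab q (p ^ n)
    rw [hco.gcd_eq_one] at hb
    have hb' : (1 : ℤ) = q * q.gcdA (p ^ n) + (p ^ n : ℕ) * q.gcdB (p ^ n) := by
      exact_mod_cast hb
    rw [hb', zpow_add, zpow_mul, zpow_mul, zpow_natCast, zpow_natCast, h2, one_zpow, mul_one]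
    exact N.zpow_mem h1 _
  simpa using h3

theorem CHQ_index {q : ℕ} {K W : Type} [Group K] [Finite K] [Group W] [Finite W]
    (κ : K →* W) (hκ : Function.Injective κ) (hc : Nat.card W = q * Nat.card K) :
    κ.range.index = q := by
  have h1 := κ.range.index_mul_card
  have h2 : Nat.card κ.range = Nat.card K :=
    (Nat.card_congr (MonoidHom.ofInjective hκ).toEquiv).symm
  rw [h2, hc] at h1
  exact Nat.eq_of_mul_eq_mul_right Nat.card_pos h1

theorem CHQ_norm {K W : Type} [Group K] [Group W] (κ : K →* W) (hκ : Function.Injective κ)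
    (P : Subgroup K) (x : K) :
    κ x ∈ Subgroup.normalizer ((P.map κ : Subgroup W) : Set W) ↔
      x ∈ Subgroup.normalizer (P : Set K) := by
  rw [Subgroup.mem_normalizer_iff, Subgroup.mem_normalizer_iff]
  constructor
  · intro h y
    have := h (κ y)
    rw [Subgroup.mem_map_iff_mem hκ, ← map_inv, ← map_mul, ← map_mul,
      Subgroup.mem_map_iff_mem hκ] at this
    exact this
  · intro h w
    constructor
    · rintro ⟨y, hy, rfl⟩
      exact ⟨x * y * x⁻¹, (h y).mp hy, by simp⟩
    · rintro ⟨y, hy, hyw⟩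
      refine ⟨x⁻¹ * y * x, (h _).mpr (by simpa [mul_assoc] using hy), ?_⟩
      rw [map_mul, map_mul, map_inv, hyw]
      group

/-- `κ(R)` is normalised by `H` if `R = O_p(H.comap κ)`. -/
theorem CHQ_nor {p : ℕ} {K W : Type} [Group K] [Group W] (κ : K →* W)
    (hκ : Function.Injective κ) (hn : κ.range.Normal) (H : Subgroup W) (R : Subgroup K)
    (hR : IsOp p (H.comap κ) R) :
    H ≤ Subgroup.normalizer ((R.map κ : Subgroup W) : Set W) := by
  obtain ⟨⟨hR1, hR2, hR3⟩, hR4⟩ := hR
  -- conjugation by `h`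
  have key : ∀ h ∈ H, ∀ x ∈ R, ∀ y : K, κ y = h * κ x * h⁻¹ → y ∈ R := by
    intro h hh x hx y hy
    let R' : Subgroup K := ((R.map κ).map (MulAut.conj h).toMonoidHom).comap κ
    have hR' : R' ∈ {Q : Subgroup K | Q ≤ H.comap κ ∧ IsPGroup p Q ∧
        H.comap κ ≤ Subgroup.normalizer Q} := by
      refine ⟨?_, ?_, ?_⟩
      · rintro z ⟨w, ⟨u, hu, rfl⟩, hz⟩
        change κ z ∈ H
        rw [← hz]
        exact H.mul_mem (H.mul_mem hh (hR1 hu)) (H.inv_mem hh)
      · have e1 : IsPGroup p ↥((R.map κ).map (MulAut.conj h).toMonoidHom) :=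
          (hR2.map κ).map _
        exact e1.comap_of_injective κ hκ
      · intro g hg
        rw [Subgroup.mem_normalizer_iff]
        have aux : ∀ g : K, κ g ∈ H → ∀ z, z ∈ R' → g * z * g⁻¹ ∈ R' := by
          rintro g hg z ⟨w, ⟨u, hu, rfl⟩, hz⟩
          obtain ⟨g', hg'⟩ : ∃ g', κ g' = h⁻¹ * κ g * h := by
            have := hn.conj_mem (κ g) ⟨g, rfl⟩ h⁻¹
            obtain ⟨g', hg'⟩ := this
            exact ⟨g', by rw [hg', inv_inv]⟩
          have hg'H : g' ∈ H.comap κ := by
            change κ g' ∈ H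
            rw [hg']
            exact H.mul_mem (H.mul_mem (H.inv_mem hh) hg) hh
          have hu' : g' * u * g'⁻¹ ∈ R :=
            (Subgroup.mem_normalizer_iff.mp (hR3 hg'H) u).mp hu
          refine ⟨κ (g' * u * g'⁻¹), ⟨_, hu', rfl⟩, ?_⟩
          have hz' : h * κ u * h⁻¹ = κ z := hz
          change h * κ (g' * u * g'⁻¹) * h⁻¹ = κ (g * z * g⁻¹)
          rw [map_mul, map_mul, map_inv, map_mul, map_mul, map_inv, hg', ← hz']
          group
        intro z
        constructor
        · exact aux g hg z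
        · intro hz
          have := aux g⁻¹ (by rw [map_inv]; exact H.inv_mem hg) _ hz
          have e : g⁻¹ * (g * z * g⁻¹) * g⁻¹⁻¹ = z := by group
          rwa [e] at this
    have : R' ≤ R := hR4 hR'
    exact this ⟨κ x, ⟨x, hx, rfl⟩, hy.symm⟩
  intro h hh
  rw [Subgroup.mem_normalizer_iff]
  have aux : ∀ h ∈ H, ∀ w ∈ R.map κ, h * w * h⁻¹ ∈ R.map κ := by
    rintro h hh w ⟨x, hx, rfl⟩
    obtain ⟨y, hy⟩ := hn.conj_mem (κ x) ⟨x, rfl⟩ h
    exact ⟨y, key h hh x hx y hy, hy⟩
  intro w
  constructor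
  · exact aux h hh w
  · intro hw
    have := aux h⁻¹ (H.inv_mem hh) _ hw
    have e : h⁻¹ * (h * w * h⁻¹) * h⁻¹⁻¹ = w := by group
    rwa [e] at this

theorem CHQ_op (hOPE : OPE_stmt) {p q : ℕ} (hp : p.Prime) (hq : q.Prime) (hqp : q ≠ p)
    {K W : Type} [Group K] [Finite K] [Group W]
    [Finite W] (κ : K →* W) (hκ : Function.Injective κ) (hn : κ.range.Normal)
    (hc : Nat.card W = q * Nat.card K) (H P : Subgroup W) :
    IsOp p H P ↔ ∃ P₀, P = P₀.map κ ∧ IsOp p (H.comap κ) P₀ := by
  obtain ⟨R, hR⟩ := hOPE K p hp (H.comap κ)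
  have hRn := CHQ_nor κ hκ hn H R hR
  have hpr : ∀ Q : Subgroup W, IsPGroup p Q → Q ≤ κ.range :=
    CHQ_pgroup hp hq hqp κ.range hn (CHQ_index κ hκ hc)
  have main : IsOp p H (R.map κ) := by
    obtain ⟨⟨hR1, hR2, hR3⟩, hR4⟩ := hR
    refine ⟨⟨?_, hR2.map κ, hRn⟩, ?_⟩
    · rintro w ⟨x, hx, rfl⟩
      exact hR1 hx
    · rintro Q ⟨hQ1, hQ2, hQ3⟩
      have h1 : Q.comap κ ∈ {Q : Subgroup K | Q ≤ H.comap κ ∧ IsPGroup p Q ∧
          H.comap κ ≤ Subgroup.normalizer Q} := by
        refine ⟨Subgroup.comap_mono hQ1, hQ2.comap_of_injective κ hκ, ?_⟩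
        intro g hg
        have h2 := hQ3 hg
        rw [Subgroup.mem_normalizer_iff] at h2 ⊢
        intro z
        have := h2 (κ z)
        rw [← map_inv, ← map_mul, ← map_mul] at this
        exact this
      have h2 : Q.comap κ ≤ R := hR4 h1
      intro w hw
      obtain ⟨x, rfl⟩ := hpr Q hQ2 hw
      exact ⟨x, h2 hw, rfl⟩
  constructor
  · intro hP
    exact ⟨R, hP.unique main, hR⟩
  · rintro ⟨P₀, rfl, hP₀⟩
    rw [hP₀.unique hR]
    exact main

theorem CHQ_NC {K W : Type} [Group K] [Group W] (κ : K →* W) (hκ : Function.Injective κ)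
    (C : List (Subgroup K)) : (NC (cW κ C)).comap κ = NC C := by
  ext x
  rw [Subgroup.mem_comap]
  unfold NC
  simp only [Subgroup.mem_iInf]
  constructor
  · intro h P hP
    exact (CHQ_norm κ hκ P x).mp (h _ (List.mem_map.mpr ⟨P, hP, rfl⟩))
  · intro h P hP
    obtain ⟨P₀, hP₀, rfl⟩ := List.mem_map.mp hP
    exact (CHQ_norm κ hκ P₀ x).mpr (h P₀ hP₀)

theorem CHQ : CHQ_stmt := by
  intro p q hp hq hqp K W _ _ _ _ κ hκ hn hc
  have hop := CHQ_op OPE hp hq hqp κ hκ hn hc
  have hpr : ∀ Q : Subgroup W, IsPGroup p Q → Q ≤ κ.range :=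
    CHQ_pgroup hp hq hqp κ.range hn (CHQ_index κ hκ hc)
  have hmono : ∀ P Q : Subgroup K, P.map κ < Q.map κ ↔ P < Q := by
    intro P Q
    rw [lt_iff_le_not_ge, lt_iff_le_not_ge, Subgroup.map_le_map_iff_of_injective hκ,
      Subgroup.map_le_map_iff_of_injective hκ]
  have hop' : ∀ (H : Subgroup W) (P₀ : Subgroup K), IsOp p H (P₀.map κ) ↔
      IsOp p (H.comap κ) P₀ := by
    intro H P₀
    rw [hop]
    constructor
    · rintro ⟨P₁, h1, h2⟩
      rwa [Subgroup.map_injective hκ h1]
    · intro h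
      exact ⟨P₀, rfl, h⟩
  have hrad : ∀ C : List (Subgroup K), Radical p (cW κ C) ↔ Radical p C := by
    intro C
    constructor
    · intro h
      refine ⟨?_, ?_, ?_, ?_⟩
      · intro hC
        apply h.ne
        rw [hC]
        rfl
      · have := h.strict
        rw [List.pairwise_map] at this
        exact this.imp fun {a b} hab => (hmono a b).mp hab
      · intro P hP
        have h1 := h.zero (P.map κ) (by rw [List.head?_map, hP]; rfl)
        rw [hop', Subgroup.comap_top] at h1
        exact h1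
      · intro k hk
        have hk' : k + 1 < (cW κ C).length := by simpa using hk
        have h1 := h.succ k hk'
        have e1 : (cW κ C)[k + 1] = (C[k + 1]).map κ := by simp
        have e2 : (cW κ C).take (k + 2) = cW κ (C.take (k + 2)) := by
          simp [cW, List.map_take]
        rw [e1, e2, hop', CHQ_NC κ hκ] at h1
        exact h1
    · intro h
      refine ⟨?_, ?_, ?_, ?_⟩
      · intro hC
        exact h.ne (List.map_eq_nil_iff.mp hC)
      · rw [List.pairwise_map]
        exact h.strict.imp fun {a b} hab => (hmono a b).mpr hab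
      · intro P hP
        rw [List.head?_map] at hP
        obtain ⟨P₀, h1, rfl⟩ := Option.map_eq_some_iff.mp hP
        rw [hop', Subgroup.comap_top]
        exact h.zero P₀ h1
      · intro k hk
        have hk' : k + 1 < C.length := by simpa using hk
        have h1 := h.succ k hk'
        have e1 : (cW κ C)[k + 1] = (C[k + 1]).map κ := by simp
        have e2 : (cW κ C).take (k + 2) = cW κ (C.take (k + 2)) := by
          simp [cW, List.map_take]
        rw [e1, e2, hop', CHQ_NC κ hκ]
        exact h1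
  refine ⟨hop, CHQ_NC κ hκ, ?_⟩
  intro C'
  constructor
  · intro h
    -- all members are p-groups
    have hm : ∀ P ∈ C', P ≤ κ.range := by
      intro P hP
      obtain ⟨i, hi, rfl⟩ := List.mem_iff_getElem.mp hP
      rcases i with _ | k
      · have h1 := h.zero C'[0] (by
          rw [List.head?_eq_getElem?, List.getElem?_eq_getElem hi])
        exact hpr _ h1.1.2.1
      · have h1 := h.succ k hi
        exact hpr _ h1.1.2.1
    have e : cW κ (C'.map (Subgroup.comap κ)) = C' := by
      unfold cW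
      rw [List.map_map]
      conv_rhs => rw [← List.map_id C']
      apply List.map_congr_left
      intro P hP
      simp only [Function.comp, id]
      exact Subgroup.map_comap_eq_self (hm P hP)
    refine ⟨C'.map (Subgroup.comap κ), ?_, e.symm⟩
    rw [← hrad, e]
    exact h
  · rintro ⟨C, hC, rfl⟩
    exact (hrad C).mpr hC

end Pool.Agent.DD
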